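import Mathlib
import Pool.Agent.H499R2.HL.C

set_option autoImplicit false

/-! The number of circuits in the `3x+1` trajectories of almost all integers which reach `1`. -/

namespace Pool.Agent.Results.MP_08f931_nt.AlmostAll

open Filter Topology

/-- the map of the problem: the `3x+1` map, except that `1` is fixed -/
def f (n : ℕ) : ℕ := if n = 1 then 1 else if n % 2 = 1 then (3 * n + 1) / 2 else n / 2

/-- the trajectory of `n` reaches `1` -/
def Reaches (n : ℕ) : Prop := ∃ k, f^[k] n = 1

/-- the number of circuits in the trajectory of `n`: every circuit contains exactly one odd iterate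
which is followed by an even one (there is none from `1` on) -/
noncomputable def circuits (n : ℕ) : ℕ := {i : ℕ | f^[i] n % 2 = 1 ∧ f^[i + 1] n % 2 = 0}.ncard

/-- the positive integers with the property `P` have the natural density `δ` -/
def HasDensity (P : ℕ → Prop) (δ : ℝ) : Prop :=
  Tendsto (fun N : ℕ => ({n : ℕ | 1 ≤ n ∧ n ≤ N ∧ P n}.ncard : ℝ) / N) atTop (𝓝 δ)

open Pool.Agent.H499R2.ND (Tn Bas)
open Pool.Agent.H499R2.HL (H)
open Pool.Agent.H499R2.LT (odn)

theorem f_eq {n : ℕ} (hn : n ≠ 1) : f n = Tn n := by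
  unfold f
  rw [if_neg hn]
  simp only [Tn]
  rcases Nat.mod_two_eq_zero_or_one n with h | h
  · rw [if_neg (by omega), if_pos h]
  · rw [if_pos h, if_neg (by omega)]

theorem f_iter {k n : ℕ} (h : ∀ i < k, Tn^[i] n ≠ 1) : f^[k] n = Tn^[k] n := by
  induction k with
  | zero => rfl
  | succ k ih =>
    rw [Function.iterate_succ_apply', Function.iterate_succ_apply', ih fun i hi => h i (by omega),
      f_eq (h k (by omega))]

theorem f_late {k n : ℕ} (h : f^[k] n = 1) {i : ℕ} (hi : k ≤ i) : f^[i] n = 1 := by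
  obtain ⟨j, rfl⟩ := Nat.exists_eq_add_of_le hi
  induction j with
  | zero => exact h
  | succ j ih => rw [← Nat.add_assoc, Function.iterate_succ_apply', ih (by omega)]; rfl

theorem circuits_le {k n : ℕ} (h : H k n) : circuits n ≤ odn k n := by
  have hk : f^[k] n = 1 := by rw [f_iter h.2]; exact h.1
  unfold circuits odn
  rw [← Set.ncard_coe_finset]
  apply Set.ncard_le_ncard _ (Finset.finite_toSet _)
  rintro i ⟨h1, h2⟩
  rw [Finset.mem_coe, Finset.mem_filter, Finset.mem_range]
  have hik : i < k := by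
    by_contra hc
    have h3 := f_late hk (show k ≤ i + 1 by omega)
    rw [h3] at h2
    omega
  refine ⟨hik, ?_⟩
  rw [← f_iter fun j hj => h.2 j (by omega)]
  exact h1

theorem reaches_iff {n : ℕ} : Reaches n ↔ Bas n := by
  constructor
  · rintro ⟨k, hk⟩
    by_contra hcon
    have h1 : ∀ i, Tn^[i] n ≠ 1 := fun i hi => hcon ⟨i, hi⟩
    rw [f_iter fun i _ => h1 i] at hk
    exact h1 k hk
  · intro hb
    classical
    have hb' : ∃ k, Tn^[k] n = 1 := hb
    refine ⟨Nat.find hb', ?_⟩
    rw [f_iter fun i hi => Nat.find_min hb' hi]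
    exact Nat.find_spec hb'

/-- The positive integers which reach `1` have a positive natural density `δ`, and for every
`K > 1 / log (4/3) = 3.476...` so do, with the same `δ`, those with `C(n) ≤ K log n`: the bound holds
for almost all integers which reach `1`. -/
theorem result : ∃ δ : ℝ, 0 < δ ∧ δ ≤ 1 ∧ HasDensity Reaches δ ∧
    ∀ K : ℝ, 1 / Real.log (4 / 3) < K →
      HasDensity (fun n => Reaches n ∧ (circuits n : ℝ) ≤ K * Real.log n) δ := by
  obtain ⟨δ, h0, h1, _, h3⟩ := Pool.Agent.H499R2.ND.Bas_density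
  refine ⟨δ, h0, h1, Pool.Agent.H499R2.LT.Dn_iff (fun n _ => reaches_iff.symm) h3, fun K hK => ?_⟩
  set ε : ℝ := K - 1 / Real.log (4 / 3) with hε
  have hε0 : 0 < ε := by linarith
  have hprof := Pool.Agent.H499R2.ND.bas_profile h3 (ε := ε / 4) (by positivity)
  obtain ⟨L0, hL0⟩ := Pool.Agent.H499R2.ND.oc_close hε0
  have hz := Pool.Agent.H499R2.ND.bas_zd h3 (fun n _ ⟨t, ht, _⟩ => ⟨t, ht⟩) hprof
  refine Pool.Agent.H499R2.ND.dn_congr h3 (Pool.Agent.H499R2.ND.zd_or hz (Pool.Agent.H499R2.ND.zd_log L0)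
    (fun n _ h => h)) fun n hn hE => ?_
  rw [not_or] at hE
  obtain ⟨hE1, hE2⟩ := hE
  rw [not_le] at hE2
  constructor
  · intro hb
    refine ⟨reaches_iff.2 hb, ?_⟩
    by_contra hcon
    apply hE1
    refine ⟨hb, ?_⟩
    rintro ⟨t, ht, hmin, h5, _⟩
    apply hcon
    have h6 := circuits_le (k := t) (n := n) ⟨ht, hmin⟩
    have h7 := hL0 n t hn (by rw [Pool.Agent.H499R2.ND.TN_eq_Tn]; exact ht)
      (by rw [Pool.Agent.H499R2.ND.TN_eq_Tn]; exact hmin) h5 hE2.le
    rw [Pool.Agent.H499R2.HL.oc_odn] at h7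
    have h8 := (abs_le.1 h7).2
    have h9 : (circuits n : ℝ) ≤ odn t n := by exact_mod_cast h6
    have h10 : K * Real.log n = 1 / Real.log (4 / 3) * Real.log n + ε * Real.log n := by
      rw [hε]; ring
    rw [h10]
    linarith
  · rintro ⟨h4, _⟩
    exact reaches_iff.1 h4

end Pool.Agent.Results.MP_08f931_nt.AlmostAll
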